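import Pool.Agent.K1H2.UB.Stm2

/-!
# The mean of the Newton kernel over a unit cube
-/

set_option autoImplicit false

open scoped ENNReal
open Finset MeasureTheory Pool.Agent.K1H53.BI Pool.Agent.H283R3.Newt Pool.Agent.K1H2.UB

namespace Pool.Agent.K1H74.UB

theorem pointwise (a h : E3) (ha : 3 ≤ ‖a‖) (hh : ‖h‖ ≤ 1) :
    |‖a + h‖⁻¹ + ‖a - h‖⁻¹ - 2 / ‖a‖| ≤ 9 / ‖a‖ ^ 3 := by
  have hpl := parallelogram_law_with_norm ℝ a h
  have h1 : |‖a + h‖ - ‖a‖| ≤ 1 := by
    refine (abs_norm_sub_norm_le (a + h) a).trans ?_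
    rw [add_sub_cancel_left]; exact hh
  have h2 : |‖a - h‖ - ‖a‖| ≤ 1 := by
    refine (abs_norm_sub_norm_le (a - h) a).trans ?_
    rw [sub_sub_cancel_left, norm_neg]; exact hh
  have hb0 := norm_nonneg h
  generalize ‖a + h‖ = P at *
  generalize ‖a - h‖ = M at *
  generalize ‖a‖ = R at *
  generalize ‖h‖ = b at *
  have hP := abs_le.1 h1
  have hM := abs_le.1 h2
  have hP0 : 2 / 3 * R ≤ P := by linarith [hP.1]
  have hM0 : 2 / 3 * R ≤ M := by linarith [hM.1]
  have hR : 0 < R := by linarith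
  have hPp : 0 < P := by linarith
  have hMp : 0 < M := by linarith
  have hnum : R * (P + M) - 2 * P * M =
      -(b * b) + ((P - R) ^ 2 + (M - R) ^ 2) / 2 - 2 * ((P - R) * (M - R)) := by
    linear_combination (-1 / 2 : ℝ) * hpl
  have e : P⁻¹ + M⁻¹ - 2 / R = (R * (P + M) - 2 * P * M) / (P * M * R) := by
    field_simp
    ring
  have a1 : (P - R) ^ 2 ≤ 1 := by
    rw [← sq_abs]; exact pow_le_one₀ (abs_nonneg _) h1
  have a2 : (M - R) ^ 2 ≤ 1 := by
    rw [← sq_abs]; exact pow_le_one₀ (abs_nonneg _) h2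
  have a3 : |(P - R) * (M - R)| ≤ 1 := by
    rw [abs_mul]; exact mul_le_one₀ h1 (abs_nonneg _) h2
  have a4 : b * b ≤ 1 := mul_le_one₀ hh hb0 hh
  have a5 : 0 ≤ b * b := mul_self_nonneg b
  have hnum' : |R * (P + M) - 2 * P * M| ≤ 4 := by
    rw [hnum, abs_le]
    have := abs_le.1 a3
    constructor
    · nlinarith [sq_nonneg (P - R), sq_nonneg (M - R)]
    · nlinarith [sq_nonneg (P - R), sq_nonneg (M - R)]
  have hden : 4 / 9 * R ^ 3 ≤ P * M * R := by
    have : 2 / 3 * R * (2 / 3 * R) ≤ P * M := mul_le_mul hP0 hM0 (by positivity) hPp.le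
    calc 4 / 9 * R ^ 3 = 2 / 3 * R * (2 / 3 * R) * R := by ring
      _ ≤ P * M * R := by gcongr
  rw [e, abs_div, abs_of_pos (by positivity : 0 < P * M * R)]
  calc |R * (P + M) - 2 * P * M| / (P * M * R) ≤ 4 / (4 / 9 * R ^ 3) := by
        apply div_le_div₀ (by norm_num) hnum' (by positivity) hden
    _ = 9 / R ^ 3 := by field_simp; try norm_num

theorem cube_eq (y : V) : cube y = (WithLp.ofLp : E3 → (Fin 3 → ℝ)) ⁻¹'
    (Set.pi Set.univ fun i => Set.Ioo ((y i : ℝ) - 1 / 2) ((y i : ℝ) + 1 / 2)) := by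
  ext x
  simp only [cube, Set.mem_ofPred_eq, Set.mem_preimage, Set.mem_pi, Set.mem_univ, true_implies,
    Set.mem_Ioo, abs_lt]
  refine forall_congr' fun i => ?_
  constructor
  · rintro ⟨h1, h2⟩; constructor <;> linarith
  · rintro ⟨h1, h2⟩; constructor <;> linarith

theorem measurableSet_cube (y : V) : MeasurableSet (cube y) := by
  rw [cube_eq]
  exact (PiLp.volume_preserving_ofLp (Fin 3)).measurable
    (MeasurableSet.univ_pi fun i => measurableSet_Ioo)

theorem volume_cube (y : V) : volume (cube y) = 1 := by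
  rw [cube_eq, (PiLp.volume_preserving_ofLp (Fin 3)).measure_preimage
    (MeasurableSet.univ_pi fun i => measurableSet_Ioo).nullMeasurableSet, Real.volume_pi_Ioo]
  have : ∀ i : Fin 3, (y i : ℝ) + 1 / 2 - ((y i : ℝ) - 1 / 2) = 1 := fun i => by ring
  simp only [this, ENNReal.ofReal_one, Finset.prod_const_one]

theorem norm_le_of_cube (y : V) (x : E3) (hx : x ∈ cube y) : ‖x - pt (rv y)‖ ≤ 1 := by
  have h : ‖x - pt (rv y)‖ ^ 2 ≤ 1 := by
    rw [EuclideanSpace.real_norm_sq_eq]
    have h1 : ∀ i, (x - pt (rv y)) i ^ 2 ≤ 1 / 4 := by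
      intro i
      have h2 : |x i - y i| < 1 / 2 := hx i
      have h3 : (x - pt (rv y)) i = x i - y i := rfl
      rw [h3, ← sq_abs]
      nlinarith [abs_nonneg (x i - y i)]
    calc ∑ i, (x - pt (rv y)) i ^ 2 ≤ ∑ _i : Fin 3, (1 / 4 : ℝ) := Finset.sum_le_sum fun i _ => h1 i
      _ ≤ 1 := by simp; norm_num
  nlinarith [norm_nonneg (x - pt (rv y))]

theorem norm_pt (w : Fin 3 → ℝ) : ‖pt w‖ = len w := by
  unfold len q
  rw [EuclideanSpace.norm_eq]
  congr 1
  exact Finset.sum_congr rfl fun i _ => by rw [Real.norm_eq_abs, sq_abs]; rfl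

theorem t_CUBE : S_CUBE := by
  refine ⟨9, by norm_num, fun y p hw => ?_⟩
  set c : E3 := pt (rv y) with hc
  set a : E3 := c - pt p with ha
  have haw : a = pt (rv y - p) := rfl
  have hna : ‖a‖ = len (rv y - p) := by rw [haw, norm_pt]
  rw [← hna] at hw ⊢
  have hd : ∀ x : E3, dist (pt p) x = ‖a + (x - c)‖ := by
    intro x
    rw [dist_comm, dist_eq_norm, ha]
    congr 1
    abel
  have hd' : ∀ x : E3, dist (pt p) ((2 : ℝ) • c - x) = ‖a - (x - c)‖ := by
    intro x
    rw [dist_comm, dist_eq_norm, ha, two_smul]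
    congr 1
    abel
  have hmeas : Measurable fun x : E3 => (dist (pt p) x)⁻¹ :=
    (continuous_const.dist continuous_id).measurable.inv
  have hfin : volume (cube y) ≠ ∞ := by rw [volume_cube]; exact ENNReal.one_ne_top
  have hbd : ∀ x ∈ cube y, ‖(dist (pt p) x)⁻¹‖ ≤ 1 := by
    intro x hx
    have h1 := norm_le_of_cube y x hx
    rw [hd x, Real.norm_of_nonneg (by positivity)]
    have h2 : 1 ≤ ‖a + (x - c)‖ := by
      have h3 := abs_norm_sub_norm_le (a + (x - c)) a
      rw [add_sub_cancel_left] at h3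
      have h4 := abs_le.1 (h3.trans h1)
      linarith [h4.1]
    exact inv_le_one_of_one_le₀ h2
  have hint : IntegrableOn (fun x => (dist (pt p) x)⁻¹) (cube y) := by
    refine Measure.integrableOn_of_bounded (M := 1) hfin hmeas.aestronglyMeasurable ?_
    exact (ae_restrict_iff' (measurableSet_cube y)).2 (Filter.Eventually.of_forall hbd)
  refine ⟨hint, ?_⟩
  -- reflection
  have hpre : (fun x : E3 => (2 : ℝ) • c - x) ⁻¹' (cube y) = cube y := by
    ext x
    simp only [cube, Set.mem_preimage, Set.mem_ofPred_eq]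
    refine forall_congr' fun i => ?_
    have h1 : ((2 : ℝ) • c - x) i - y i = -(x i - y i) := by
      have : ((2 : ℝ) • c - x) i = 2 * (y i : ℝ) - x i := rfl
      rw [this]; ring
    rw [h1, abs_neg]
  have hmp : MeasurePreserving (fun x : E3 => (2 : ℝ) • c - x) volume volume :=
    Measure.measurePreserving_sub_left volume _
  have hme : MeasurableEmbedding (fun x : E3 => (2 : ℝ) • c - x) :=
    (MeasurableEquiv.subLeft ((2 : ℝ) • c)).measurableEmbedding
  have hrefl := hmp.setIntegral_preimage_emb hme (fun x => (dist (pt p) x)⁻¹) (cube y)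
  rw [hpre] at hrefl
  have hint' : IntegrableOn (fun x => (dist (pt p) ((2 : ℝ) • c - x))⁻¹) (cube y) := by
    have h1 := (hmp.integrableOn_comp_preimage hme (f := fun x => (dist (pt p) x)⁻¹) (s := cube y)).2 hint
    rw [hpre] at h1
    exact h1
  have hconst : IntegrableOn (fun _ : E3 => 2 / ‖a‖) (cube y) := integrableOn_const hfin
  have hone : volume.real (cube y) = 1 := by rw [measureReal_def, volume_cube]; rfl
  have hsum : ∫ x in cube y, ((dist (pt p) x)⁻¹ + (dist (pt p) ((2 : ℝ) • c - x))⁻¹ - 2 / ‖a‖) =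
      2 * ((∫ x in cube y, (dist (pt p) x)⁻¹) - 1 / ‖a‖) := by
    have e1 := integral_sub (hint.add hint') hconst
    have e2 := integral_add hint hint'
    simp only [Pi.add_apply] at e1
    rw [e1, e2, hrefl, setIntegral_const, hone]
    simp only [smul_eq_mul]
    ring
  have hbound := norm_setIntegral_le_of_norm_le_const (μ := volume) (s := cube y)
    (f := fun x => (dist (pt p) x)⁻¹ + (dist (pt p) ((2 : ℝ) • c - x))⁻¹ - 2 / ‖a‖)
    (C := 9 / ‖a‖ ^ 3) (lt_top_iff_ne_top.2 hfin) (by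
      intro x hx
      rw [Real.norm_eq_abs, hd, hd']
      exact pointwise a (x - c) hw (norm_le_of_cube y x hx))
  rw [hsum, hone, mul_one, Real.norm_eq_abs, abs_mul, abs_two] at hbound
  have h0 : 0 ≤ 9 / ‖a‖ ^ 3 := by positivity
  have h1 := abs_nonneg ((∫ x in cube y, (dist (pt p) x)⁻¹) - 1 / ‖a‖)
  linarith

end Pool.Agent.K1H74.UB
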