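import Pool.Agent.K1H2.UB.Stm3
import Pool.Agent.K1H26.BI.Kids

/-!
# The children of one particle in the two descriptions
-/

set_option autoImplicit false

open scoped ENNReal
open MeasureTheory
open Pool.Agent.K1H53.BI (V St children Ex Phi prob CondH top C_ABEL Ex_pure Ex_bind put dir)
open Pool.Agent.K1H2.BI (State Inst Dir arrive kids at' agg Crit Drawn event Inv X stepOf)
open Pool.Agent.K1H2.UB

namespace Pool.Agent.K1H74.UB

theorem arrive_cons (x : V) (e : Dir) (es : List Dir) (p : Finset V × List V) :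
    arrive x (e :: es) p = arrive x es
      (if x + stepOf e ∈ p.1 then (p.1, (x + stepOf e) :: p.2)
        else (insert (x + stepOf e) p.1, p.2)) := rfl

theorem put_eq (A : Finset V) (L : List V) (m : ℕ) (x : V) (e : Dir) :
    put ⟨A, L, m⟩ (x + dir e) =
      ⟨(if x + stepOf e ∈ A then (A, (x + stepOf e) :: L) else (insert (x + stepOf e) A, L)).1,
        (if x + stepOf e ∈ A then (A, (x + stepOf e) :: L) else (insert (x + stepOf e) A, L)).2,
        m⟩ := by
  have h : dir e = stepOf e := rfl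
  rw [h]
  unfold put
  simp only
  split_ifs <;> rfl

theorem Ex_children (x : V) (m : ℕ) (f : St → ℝ≥0∞) (k : ℕ) : ∀ (A : Finset V) (L : List V),
    Ex (children x k ⟨A, L, m⟩) f = ∑ v : Fin k → Dir, ((6 : ℝ≥0∞) ^ k)⁻¹ *
      f ⟨(arrive x (List.ofFn v) (A, L)).1, (arrive x (List.ofFn v) (A, L)).2, m⟩ := by
  induction k with
  | zero =>
    intro A L
    have h : children x 0 ⟨A, L, m⟩ = PMF.pure ⟨A, L, m⟩ := rfl
    rw [h, Ex_pure]
    simp [arrive]
  | succ k ih =>
    intro A L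
    have h : children x (k + 1) ⟨A, L, m⟩ = (PMF.uniformOfFintype (Fin 3 × Bool)).bind fun e =>
      children x k (put ⟨A, L, m⟩ (x + dir e)) := rfl
    have h6 : Fintype.card Dir = 6 := by decide
    have h7 : ((6 : ℝ≥0∞) ^ (k + 1))⁻¹ = 6⁻¹ * (6 ^ k)⁻¹ := by
      rw [pow_succ, mul_comm, ENNReal.mul_inv (Or.inl (by norm_num)) (Or.inl (by norm_num))]
    rw [h, Ex_bind]
    have h1 : Ex (PMF.uniformOfFintype (Fin 3 × Bool))
        (fun e => Ex (children x k (put ⟨A, L, m⟩ (x + dir e))) f) =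
        ∑ e : Dir, (6 : ℝ≥0∞)⁻¹ * Ex (children x k (put ⟨A, L, m⟩ (x + dir e))) f := by
      unfold Ex
      rw [tsum_fintype]
      refine Finset.sum_congr rfl fun e _ => ?_
      rw [PMF.uniformOfFintype_apply]
      have : (Fintype.card (Fin 3 × Bool)) = 6 := h6
      rw [this]
      rfl
    have h2 : ∀ F : (Fin (k + 1) → Dir) → ℝ≥0∞, ∑ v : Fin (k + 1) → Dir, F v =
        ∑ e : Dir, ∑ v : Fin k → Dir, F (Fin.cons (α := fun _ => Dir) e v) := by
      intro F
      have e1 : ∑ v : Fin (k + 1) → Dir, F v =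
          ∑ p : Dir × (Fin k → Dir), F (Fin.cons (α := fun _ => Dir) p.1 p.2) := by
        rw [← (Fin.consEquiv (fun _ : Fin (k + 1) => Dir)).sum_comp]
        rfl
      rw [e1, Fintype.sum_prod_type]
    rw [h1, h2]
    refine Finset.sum_congr rfl fun e _ => ?_
    rw [put_eq, ih, Finset.mul_sum]
    refine Finset.sum_congr rfl fun v _ => ?_
    rw [← mul_assoc, ← h7]
    have h8 : List.ofFn (Fin.cons (α := fun _ => Dir) e v) = e :: List.ofFn v := by
      rw [List.ofFn_succ]
      rfl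
    rw [h8, arrive_cons]

theorem t_KCH : S_KCH := by
  intro ν x A L m f
  rw [Pool.Agent.K1H26.BI.lint ν (fun l => f ⟨(arrive x l (A, L)).1, (arrive x l (A, L)).2, m⟩)]
  unfold top
  rw [Ex_bind]
  have h : ∀ k, Ex (children x k ⟨A, L, m⟩) f = ∑ v : Fin k → Dir, ((6 : ℝ≥0∞) ^ k)⁻¹ *
      f ⟨(arrive x (List.ofFn v) (A, L)).1, (arrive x (List.ofFn v) (A, L)).2, m⟩ :=
    fun k => Ex_children x m f k A L
  simp only [h]
  rfl

end Pool.Agent.K1H74.UB
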